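import Mathlib
import Pool.Agent.X280.CE.E6b

set_option autoImplicit false

/-!
# MP_7bf690_al, Q1: a strongly indecomposable torsion-free group of rank 6 whose endomorphism ring
is non-commutative and centrally essential
-/

namespace Pool.Agent.Results.MP_7bf690_al.RankSix

open Pool.Agent.X280.CE

/-- A ring is centrally essential if every nonzero element `a` has nonzero central `c`, `d` with
`a c = d`. -/
def CentrallyEssential (Q : Type) [Ring Q] : Prop :=
  ∀ a : Q, a ≠ 0 → ∃ c ∈ Subring.center Q, ∃ d ∈ Subring.center Q, c ≠ 0 ∧ d ≠ 0 ∧ a * c = d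

/-- Torsion-free abelian group. -/
def TorsionFree (A : Type) [AddCommGroup A] : Prop := ∀ (n : ℕ) (x : A), n ≠ 0 → n • x = 0 → x = 0

/-- `A` is nonzero and `n A ⊆ B ⊕ C` for subgroups `B`, `C` of `A` and `n ≥ 1` only if `B = 0` or
`C = 0`. -/
def StronglyIndecomposable (A : Type) [AddCommGroup A] : Prop :=
  Nontrivial A ∧ ∀ (B C : AddSubgroup A) (n : ℕ), 0 < n → Disjoint B C →
    (∀ a : A, n • a ∈ B ⊔ C) → B = ⊥ ∨ C = ⊥

theorem strongly : StronglyIndecomposable E6.data.A := by
  refine ⟨⟨⟨1, E6.data.one_mem_A⟩, 0, ?_⟩, ?_⟩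
  · intro h
    have h1 := congrArg Subtype.val h
    have h2 : (1 : E6 ℚ).a = (0 : E6 ℚ).a := congrArg E6.a h1
    simp at h2
  intro B C n hn hdis hsup
  -- unique decomposition
  have hex : ∀ a : E6.data.A, ∃ b ∈ B, ∃ c ∈ C, b + c = n • a := by
    intro a
    exact AddSubgroup.mem_sup.1 (hsup a)
  choose β hβ γ hγ hsum using hex
  have huniq : ∀ b b' c c' : E6.data.A, b ∈ B → b' ∈ B → c ∈ C → c' ∈ C → b + c = b' + c' →
      b = b' := by
    intro b b' c c' hb hb' hc hc' h
    have h1 : b - b' = c' - c := by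
      rw [sub_eq_sub_iff_add_eq_add, h, add_comm]
    have h2 : b - b' ∈ B := B.sub_mem hb hb'
    have h3 : b - b' ∈ C := by rw [h1]; exact C.sub_mem hc' hc
    have h4 : b - b' ∈ (⊥ : AddSubgroup E6.data.A) := hdis.le_bot ⟨h2, h3⟩
    exact sub_eq_zero.1 h4
  let e : AddMonoid.End E6.data.A :=
    { toFun := β
      map_zero' := huniq _ _ (γ 0) 0 (hβ 0) B.zero_mem (hγ 0) C.zero_mem (by
        rw [hsum, smul_zero, add_zero])
      map_add' := fun x y => huniq _ _ (γ (x + y)) (γ x + γ y) (hβ _) (B.add_mem (hβ _) (hβ _))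
        (hγ _) (C.add_mem (hγ _) (hγ _)) (by
          rw [hsum, smul_add, ← hsum x, ← hsum y]; abel) }
  have he : ∀ x ∈ B, e x = n • x := fun x hx =>
    huniq _ _ (γ x) 0 (hβ x) (B.nsmul_mem hx n) (hγ x) C.zero_mem ((hsum x).trans (add_zero _).symm)
  have he' : ∀ x ∈ C, e x = 0 := fun x hx =>
    huniq _ _ (γ x) (n • x) (hβ x) B.zero_mem (hγ x) (C.nsmul_mem hx n) ((hsum x).trans (zero_add _).symm)
  have hee : e * e = n • e := by
    refine AddMonoidHom.ext fun x => ?_
    exact he _ (hβ x)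
  have hev : E6.data.ev e * E6.data.ev e = (n : ℚ) • E6.data.ev e := by
    rw [← RD.ev_mul, hee, Nat.cast_smul_eq_nsmul]
    rfl
  have hnq : (n : ℚ) ≠ 0 := by exact_mod_cast hn.ne'
  rcases E6.idem hnq hev with h | h
  · left
    rw [eq_bot_iff]
    intro x hx
    have h1 := he x hx
    have h2 : (e x : E6 ℚ) = 0 := by rw [E6.data.apply_eq, h, zero_mul]
    have h3 : e x = 0 := Subtype.ext h2
    rw [h3] at h1
    exact E6.data.tfree x n hn.ne' h1.symm
  · right
    rw [eq_bot_iff]
    intro x hx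
    have h1 := he' x hx
    have h2 : (e x : E6 ℚ) = n • (x : E6 ℚ) := by
      rw [E6.data.apply_eq, h, smul_mul_assoc, one_mul, Nat.cast_smul_eq_nsmul]
    have h3 : n • x = 0 := by
      rw [← h1]
      exact Subtype.ext h2.symm
    exact E6.data.tfree x n hn.ne' h3

/-- coordinates -/
def coord : E6 ℚ ≃ₗ[ℚ] (Fin 6 → ℚ) where
  toFun u := ![u.a, u.x, u.y, u.z, u.p, u.q]
  invFun w := ⟨w 0, w 1, w 2, w 3, w 4, w 5⟩
  left_inv u := rfl
  right_inv w := by
    funext i
    fin_cases i <;> rfl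
  map_add' u v := by
    funext i
    fin_cases i <;> rfl
  map_smul' c u := by
    funext i
    fin_cases i <;> rfl

theorem rank_six : Module.finrank ℚ (TensorProduct ℤ ℚ E6.data.A) = 6 := by
  let f : E6.data.A →ₗ[ℤ] E6 ℚ := E6.data.A.subtype.toIntLinearMap
  have hf : IsLocalizedModule (nonZeroDivisors ℤ) f := by
    refine ⟨?_, ?_, ?_⟩
    · intro n
      have hn : ((n : ℤ) : ℚ) ≠ 0 := by
        exact_mod_cast nonZeroDivisors.ne_zero n.2
      rw [Module.End.isUnit_iff]
      constructor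
      · intro x y h
        change (n : ℤ) • x = (n : ℤ) • y at h
        rw [← Int.cast_smul_eq_zsmul ℚ, ← Int.cast_smul_eq_zsmul ℚ] at h
        exact smul_right_injective _ hn h
      · intro y
        refine ⟨((n : ℤ) : ℚ)⁻¹ • y, ?_⟩
        change (n : ℤ) • (((n : ℤ) : ℚ)⁻¹ • y) = y
        rw [← Int.cast_smul_eq_zsmul ℚ, smul_smul, mul_inv_cancel₀ hn, one_smul]
    · intro y
      obtain ⟨N, hN, h⟩ := E6.data.exists_mult y
      refine ⟨(⟨_, h⟩, ⟨(N : ℤ), mem_nonZeroDivisors_of_ne_zero (by exact_mod_cast hN)⟩), ?_⟩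
      change (N : ℤ) • y = (N : ℚ) • y
      rw [← Int.cast_smul_eq_zsmul ℚ]
      norm_cast
    · intro x y h
      exact ⟨1, by rw [Subtype.ext h]⟩
  have hb := (IsLocalizedModule.isBaseChange (nonZeroDivisors ℤ) ℚ f).equiv
  rw [hb.finrank_eq, coord.finrank_eq]
  simp

/-- **Result** (positive answer to Q1). There is a strongly indecomposable torsion-free abelian
group of rank 6 whose endomorphism ring is non-commutative and centrally essential. -/
theorem result : ∃ (A : Type) (_ : AddCommGroup A), TorsionFree A ∧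
    Module.finrank ℚ (TensorProduct ℤ ℚ A) = 6 ∧ StronglyIndecomposable A ∧
    CentrallyEssential (AddMonoid.End A) ∧ ∃ f g : AddMonoid.End A, f * g ≠ g * f :=
  ⟨E6.data.A, inferInstance, fun n x hn h => E6.data.tfree x n hn h, rank_six, strongly,
    E6.data.centEss E6.centEss, E6.data.noncomm E6.eX_mem E6.eY_mem E6.eX_eY⟩

end Pool.Agent.Results.MP_7bf690_al.RankSix
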